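import Pool.Agent.Run7.h652.CT.KT

/-!
# Elliptic curves whose points of order two are defined over the cubic extension of the constants

Let `K` be the function field of a curve over a finite field `k` and `L` the extension of `K` by the
constants of degree three. We bound the order of vanishing of the `L`-function of all elliptic curves
over `K` which have a point of order two over `L` and none over `K`, and give families of rank one and
two, over all `K`, for which rank and order agree.
-/

set_option autoImplicit false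
set_option linter.all false
set_option maxHeartbeats 4000000

open Polynomial Pool.Agent.W343.BSD Pool.Agent.W313.Gr

namespace Pool.Agent.Results.MP_ff7320_nt.ConstantTwoDivision

section defs

variable {k K : Type} [Field k] [Field K] [Algebra k K]

/-- `L` is the extension of `K` by the constants of degree three: `[L : K] = 3`, and the field of
constants of `L` has degree three over `k`. -/
def IsCubicConstExt (k K L : Type) [Field k] [Field K] [Field L] [Algebra k L] [Algebra K L] : Prop :=
  Module.finrank K L = 3 ∧ constDeg k L = 3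

open Classical in
/-- The weight of the place `v` for the curve `y ^ 2 = x ^ 3 + a x + b`: it is `2 ^ v₂(deg v)` if
`3 | deg v` and the reduction is multiplicative, twice this if `3 | deg v` and the reduction is
additive, and zero otherwise. -/
noncomputable def badWeight (v : FF.Place k K) (a b : K) : ℕ :=
  if 3 ∣ S.deg v ∧ v.ord (minDisc v a b) ≠ 0 then
    (if minA v a b ≠ 0 ∧ v.ord (minA v a b) = 0 then 1 else 2) * 2 ^ padicValNat 2 (S.deg v)
  else 0

/-- For the extension `L` of `K` by the constants of degree three the quotient of the class numbers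
of `L` and `K` is odd: the numerators of the zeta functions of `K` and `L` have the same multiplicity
of the root `1` modulo two. -/
def OddClassQuotient (k K : Type) [Field k] [Field K] [Algebra k K] : Prop :=
  ∃ (L : Type) (_ : Field L) (_ : Algebra k L) (_ : Algebra K L) (_ : IsScalarTower k K L),
    IsCubicConstExt k K L ∧
      ∀ PK PL : ℤ[X], S.IsZetaNum k K PK → S.IsZetaNum k L PL → muTwo PL ≤ muTwo PK

/-- The coefficient of `x` of the curve `E_f : y ^ 2 = (x - e₁) (x - e₂) (x - e₃)` with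
`e = α(f) θ + β(f) (3 θ ^ 2 + 2 c)` for the three roots `θ` of `X ^ 3 + c X + d`. -/
noncomputable def coeffA (c d : k) (α β : k[X]) (f : K) : K :=
  algebraMap k K c * aeval f α ^ 2 + 9 * algebraMap k K d * aeval f α * aeval f β -
    3 * algebraMap k K c ^ 2 * aeval f β ^ 2

/-- The constant coefficient of the curve `E_f`. -/
noncomputable def coeffB (c d : k) (α β : k[X]) (f : K) : K :=
  algebraMap k K d * aeval f α ^ 3 - 2 * algebraMap k K c ^ 2 * aeval f α ^ 2 * aeval f β -
    9 * algebraMap k K c * algebraMap k K d * aeval f α * aeval f β ^ 2 -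
    (2 * algebraMap k K c ^ 3 + 27 * algebraMap k K d ^ 2) * aeval f β ^ 3

/-- The larger of the degrees of `α` and `β`. -/
noncomputable def degMax (α β : k[X]) : ℕ := max α.natDegree β.natDegree

/-- `X ^ 3 + c X + d` is irreducible (it has no root in `k`), `α` and `β` are coprime and not both
constant. -/
def Nice (c d : k) (α β : k[X]) : Prop :=
  (∀ x : k, x ^ 3 + c * x + d ≠ 0) ∧ IsCoprime α β ∧ 0 < degMax α β

/-- The polynomial `δ = α ^ 3 + 9 c α β ^ 2 + 27 d β ^ 3`, the norm of `α - 3 θ β`. The discriminant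
of `E_f` is a constant times `δ(f) ^ 2`. -/
noncomputable def delta (c d : k) (α β : k[X]) : k[X] :=
  α ^ 3 + 9 * C c * α * β ^ 2 + 27 * C d * β ^ 3

/-- The rank of `E` over `k(T)` is at least `R`. -/
def RankOverLine (c d : k) (α β : k[X]) (R : ℕ) : Prop :=
  R ≤ rank (coeffA c d α β (RatFunc.X : RatFunc k)) (coeffB c d α β (RatFunc.X : RatFunc k))

open Classical in
/-- The sum of `2 ^ v₂(deg v)` over the zeros `v` of `δ(f)` (without multiplicities) and of
`2 · 2 ^ v₂(deg v)` over the poles `v` of `f` with `3 | deg v` and `degMax α β · ord_v(f)` odd. -/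
noncomputable def total (c d : k) (α β : k[X]) (f : K) : ℕ :=
  (∑ᶠ v : FF.Place k K, if 0 < v.ord (aeval f (delta c d α β)) then 2 ^ padicValNat 2 (S.deg v)
    else 0) +
  ∑ᶠ v : FF.Place k K, if v.ord f < 0 ∧ Odd (degMax α β * v.ord f) ∧ 3 ∣ S.deg v then
    2 * 2 ^ padicValNat 2 (S.deg v) else 0

/-- `y ^ 2 = x ^ 3 + a x + b` is an elliptic curve with a non-constant `j`-invariant
`6912 a ^ 3 / (4 a ^ 3 + 27 b ^ 2)`. -/
def NonIsotrivial (k : Type) {K : Type} [Field k] [Field K] [Algebra k K] (a b : K) : Prop :=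
  4 * a ^ 3 + 27 * b ^ 2 ≠ 0 ∧
    ∀ c : k, 6912 * a ^ 3 / (4 * a ^ 3 + 27 * b ^ 2) ≠ algebraMap k K c

/-- If `L(T, E)` is `(1 - |k| T) ^ m G(T)` with `G` in `ℤ[T]` then `m ≤ N`. -/
def OrderBound (k : Type) {K : Type} [Field k] [Field K] [Algebra k K] (a b : K) (N : ℕ) : Prop :=
  ∀ m : ℕ, S.VanishesTo k a b m → m ≤ N

/-- The rank is at least `R` and the order of vanishing `r` of `L(T, E)` at `T = 1 / |k|` (if
`L(T, E)` is a polynomial) is at most `R`. If the rank is at most the order then both are `R`. -/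
def RankAndOrder (k : Type) {K : Type} [Field k] [Field K] [Algebra k K] (a b : K) (R : ℕ) : Prop :=
  R ≤ rank a b ∧ OrderBound k a b R ∧
    ∀ r : ℕ, HasOrder k a b r → r ≤ R ∧ (rank a b ≤ r → r = R ∧ rank a b = R)

/-- The curve `E_f` has a non-constant `j`-invariant and no point of order two. The order of vanishing
of `L(T, E_f)` is at most `total`. If the rank of `E` over `k(T)` is at least `R` then so is the rank
of `E_f`; if also `total` is at most `R`, then `RankAndOrder` holds for `E_f` with this `R`. -/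
def Conclusions (c d : k) (α β : k[X]) (f : K) : Prop :=
  NonIsotrivial k (coeffA c d α β f) (coeffB c d α β f) ∧
    (∀ x : K, x ^ 3 + coeffA c d α β f * x + coeffB c d α β f ≠ 0) ∧
    OrderBound k (coeffA c d α β f) (coeffB c d α β f) (total c d α β f) ∧
    ∀ R : ℕ, RankOverLine c d α β R → R ≤ rank (coeffA c d α β f) (coeffB c d α β f) ∧
      (total c d α β f ≤ R → RankAndOrder k (coeffA c d α β f) (coeffB c d α β f) R)

/-- `α`, `β` satisfy the conditions, their degrees are at most `R` and not both smaller, and the rank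
of `E` over `k(T)` is at least `R`. -/
def IsFull (c d : k) (α β : k[X]) (R : ℕ) : Prop :=
  Nice c d α β ∧ degMax α β = R ∧ RankOverLine c d α β R

/-- `RankAndOrder` holds over `k(t)` for `E_f`, `f = u t ^ (l ^ j)`, for some non-zero `u` and all
`j`. -/
def PowersOK (c d : k) (α β : k[X]) (R l : ℕ) : Prop :=
  ∃ u : k, u ≠ 0 ∧ ∀ j : ℕ,
    RankAndOrder k (coeffA c d α β (algebraMap k[X] (RatFunc k) (C u * X ^ l ^ j)))
      (coeffB c d α β (algebraMap k[X] (RatFunc k) (C u * X ^ l ^ j))) R

end defs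

section proof

open Pool.Agent.Run7.h652

theorem delta_eq {k : Type} [Field k] (c d : k) (α β : k[X]) : delta c d α β = CT.pD c d α β := rfl

theorem coeffA_eq {k K : Type} [Field k] [Field K] [Algebra k K] (c d : k) (α β : k[X]) (f : K) :
    coeffA c d α β f = CT.gA (algebraMap k K c) (algebraMap k K d) (aeval f α) (aeval f β) := rfl

theorem coeffB_eq {k K : Type} [Field k] [Field K] [Algebra k K] (c d : k) (α β : k[X]) (f : K) :
    coeffB c d α β f = CT.gB (algebraMap k K c) (algebraMap k K d) (aeval f α) (aeval f β) := rfl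

theorem total_eq {k K : Type} [Field k] [Field K] [Algebra k K] (c d : k) (α β : k[X]) (f : K) :
    total c d α β f = Pool.Agent.TH180.R4.zSum k (aeval f (CT.pD c d α β)) +
      CT.pSum k (CT.dg α β) f := rfl

theorem ae_ne {k K : Type} [Field k] [Field K] [Algebra k K] {α β : k[X]} (h : IsCoprime α β)
    (f : K) : ¬ (aeval f α = 0 ∧ aeval f β = 0) := by
  rintro ⟨g1, g2⟩
  obtain ⟨u, w, huw⟩ := h
  have h8 := congrArg (aeval f) huw
  rw [map_add, map_mul, map_mul, g1, g2, mul_zero, mul_zero, add_zero, map_one] at h8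
  exact zero_ne_one h8

/-- the conclusions for one curve -/
theorem common {k K : Type} [Field k] [Finite k] [Field K] [Algebra k K] (hK : IsCurveField k K)
    (h6 : (6 : k) ≠ 0) {c d : k} {α β : k[X]} (h : Nice c d α β) {f : K}
    (hf : ∀ z : k, f ≠ algebraMap k K z) (hL : OddClassQuotient k K) : Conclusions c d α β f := by
  haveI : FF.IsFF k K := ⟨hK.essFiniteType, hK.trdeg_eq_one⟩
  have h3 : (3 : k) ≠ 0 := fun e => h6 (by linear_combination 2 * e)
  have hr : constDeg k K = 1 := Pool.Agent.TH958.T4.constDeg_eq_one hK.algClosed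
  have htr := Pool.Agent.TH180.R2.transc hr hf
  obtain ⟨L, _, _, _, _, ⟨hdeg, hcL⟩, hmu⟩ := hL
  obtain ⟨hm, hcop, hdg⟩ := h
  have hαβ := ae_ne hcop f
  have hδ := CT.gD_ne h3 hK.algClosed hm hαβ
  have hD : (4 * algebraMap k K c ^ 3 + 27 * algebraMap k K d ^ 2) ≠ 0 := by
    have := (_root_.map_ne_zero (algebraMap k K)).2 (CT.disc_of_no_root h6 hm)
    rwa [map_add, map_mul, map_mul, map_pow, map_pow, map_ofNat, map_ofNat] at this
  have hΔ : 4 * coeffA c d α β f ^ 3 + 27 * coeffB c d α β f ^ 2 ≠ 0 := by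
    rw [coeffA_eq, coeffB_eq, CT.disc_eq]
    exact mul_ne_zero hD (pow_ne_zero 2 hδ)
  have hb : OrderBound k (coeffA c d α β f) (coeffB c d α β f) (total c d α β f) := fun m hM => by
    rw [total_eq]
    exact CT.bound_pull h6 hK hdeg hcL hmu hm hcop htr m hM
  refine ⟨⟨hΔ, fun z hz => CT.noniso h6 hm hcop hdg htr z ((div_eq_iff hΔ).1 hz)⟩, ?_, hb, ?_⟩
  · exact CT.no_root' (Pool.Agent.TH180.R2.nz h3) (CT.no_root_K hK.algClosed hm) hαβ
  · intro R hR
    have hrank : R ≤ rank (coeffA c d α β f) (coeffB c d α β f) := by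
      have h1 := CT.rank_pull c d α β htr
      rw [Pool.Agent.W309.RF.A_aeval, Pool.Agent.W309.RF.A_aeval] at h1
      exact (show (R : Cardinal) ≤ _ from hR).trans h1
    refine ⟨hrank, fun hw => ?_⟩
    have hU : ∀ m : ℕ, S.VanishesTo k (coeffA c d α β f) (coeffB c d α β f) m → m ≤ R :=
      fun m hm => (hb m hm).trans hw
    exact ⟨hrank, hU, fun r hr' => Pool.Agent.TH180.R4.concl4 hrank hU r hr'⟩

/-- the class numbers for `k(t)` -/
theorem rat_ok {k : Type} [Field k] [Finite k] (h6 : (6 : k) ≠ 0) :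
    OddClassQuotient k (RatFunc k) := by
  obtain ⟨L, i1, i2, i3, i4, h1, h2, h3, h4⟩ := CT.exists_L h6
  exact ⟨L, i1, i2, i3, i4, ⟨h1, h2⟩, fun PK PL _ hPL =>
    CT.no_defect (K := RatFunc k) h4 PK PL hPL⟩

/-- the family of rank one -/
theorem full_one {k : Type} [Field k] [Finite k] (h6 : (6 : k) ≠ 0) {c d : k}
    (hm : ∀ x : k, x ^ 3 + c * x + d ≠ 0) : IsFull c d (C d) (C d * X) 1 := by
  have hd := CT.d_ne hm
  have hdeg : degMax (C d) (C d * X) = 1 := by
    unfold degMax
    rw [natDegree_C, natDegree_C_mul_X _ hd]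
    rfl
  refine ⟨⟨hm, ?_, by rw [hdeg]; exact one_pos⟩, hdeg, ?_⟩
  · exact ⟨C d⁻¹, 0, by rw [zero_mul, add_zero, ← C_mul, inv_mul_cancel₀ hd, C_1]⟩
  · obtain ⟨k₃, i1, i2, i3, h3⟩ := CT.exists_cubic k
    have h := CT.rank_one_aux (k₃ := k₃) h3 h6 hm
    show (1 : ℕ) ≤ rank (CT.gA _ _ _ _) (CT.gB _ _ _ _)
    rw [map_mul, aeval_C, aeval_X]
    exact h

/-- the family of rank two -/
theorem full_two {k : Type} [Field k] [Finite k] (h6 : (6 : k) ≠ 0) {c d : k}
    (hm : ∀ x : k, x ^ 3 + c * x + d ≠ 0) (r : k) :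
    IsFull c d (C (r ^ 3 + c * r + d) + C (3 * (3 * r ^ 2 + c)) * X + C (18 * r) * X ^ 2)
      (C (-3) * X ^ 2) 2 := by
  have h3 : (3 : k) ≠ 0 := fun e => h6 (by linear_combination 2 * e)
  have h3' : (-3 : k) ≠ 0 := neg_ne_zero.2 h3
  have hdeg : degMax (C (r ^ 3 + c * r + d) + C (3 * (3 * r ^ 2 + c)) * X + C (18 * r) * X ^ 2)
      (C (-3) * X ^ 2) = 2 := by
    unfold degMax
    rw [natDegree_C_mul_X_pow 2 _ h3']
    apply max_eq_right
    compute_degree
  refine ⟨⟨hm, ?_, by rw [hdeg]; exact two_pos⟩, hdeg, ?_⟩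
  · have h0 : r ^ 3 + c * r + d ≠ 0 := hm r
    -- `α` is coprime to `X`
    have hX : IsCoprime (C (r ^ 3 + c * r + d) + C (3 * (3 * r ^ 2 + c)) * X +
        C (18 * r) * X ^ 2 : k[X]) X := by
      refine ⟨C (r ^ 3 + c * r + d)⁻¹, -(C (r ^ 3 + c * r + d)⁻¹ *
        (C (3 * (3 * r ^ 2 + c)) + C (18 * r) * X)), ?_⟩
      have : (C (r ^ 3 + c * r + d)⁻¹ * C (r ^ 3 + c * r + d) : k[X]) = 1 := by
        rw [← C_mul, inv_mul_cancel₀ h0, C_1]
      linear_combination this
    exact IsCoprime.mul_right ⟨0, C (-3)⁻¹, by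
      rw [zero_mul, zero_add, ← C_mul, inv_mul_cancel₀ h3', C_1]⟩ (hX.pow_right)
  · obtain ⟨k₃, i1, i2, i3, h3⟩ := CT.exists_cubic k
    have h := CT.rank_two_aux (k₃ := k₃) h3 h6 hm r
    show (2 : ℕ) ≤ rank (CT.gA _ _ _ _) (CT.gB _ _ _ _)
    have e1 : aeval (RatFunc.X : RatFunc k)
        (C (r ^ 3 + c * r + d) + C (3 * (3 * r ^ 2 + c)) * X + C (18 * r) * X ^ 2) =
        CT.al2 (algebraMap k (RatFunc k) c) (algebraMap k (RatFunc k) d)
          (algebraMap k (RatFunc k) r) RatFunc.X := by
      unfold CT.al2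
      simp only [map_add, map_mul, map_pow, map_ofNat, aeval_C, aeval_X]
    have e2 : aeval (RatFunc.X : RatFunc k) (C (-3) * X ^ 2 : k[X]) = CT.be2 RatFunc.X := by
      unfold CT.be2
      simp only [map_mul, map_pow, map_neg, map_ofNat, aeval_C, aeval_X]
    rw [e1, e2]
    exact h

/-- the powers -/
theorem powers {k : Type} [Field k] [Finite k] (h6 : (6 : k) ≠ 0) {c d : k} {α β : k[X]} {R : ℕ}
    (hF : IsFull c d α β R) {l : ℕ} (hl : l.Prime) (hRl : 3 * R < l) (hd : l ∣ Nat.card k - 1) :
    PowersOK c d α β R l := by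
  obtain ⟨hn, hdeg, hR⟩ := hF
  obtain ⟨hm, hcop, hpos⟩ := id hn
  have h3 : (3 : k) ≠ 0 := fun e => h6 (by linear_combination 2 * e)
  have hl2 : l ≠ 2 := by omega
  obtain ⟨hp0, hpd⟩ := CT.natDegree_pD h6 hm hcop
  have hdg : CT.dg α β = R := hdeg
  rw [hdg] at hpd
  have h0 : (CT.pD c d α β).coeff 0 ≠ 0 := by
    rw [coeff_zero_eq_eval_zero]
    have e : (CT.pD c d α β).eval 0 = CT.gD c d (α.eval 0) (β.eval 0) := by
      have := CT.aeval_pD c d α β (0 : k)
      rw [coe_aeval_eq_eval] at this
      exact this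
    rw [e]
    intro h
    exact ae_ne hcop (0 : k) (CT.gD_aniso h3 hm h)
  obtain ⟨u, hu, hirr⟩ := Pool.Agent.TH180.R4.exists_c (g := CT.pD c d α β) h0 hl hl2
    (by rw [hpd]; exact hRl) hd
  refine ⟨u, hu, fun j => ?_⟩
  have hlodd : Odd (l ^ j) := Odd.pow (hl.odd_of_ne_two hl2)
  have hmd : (C u * X ^ l ^ j : k[X]).natDegree = l ^ j := natDegree_C_mul_X_pow _ _ hu
  have hf : ∀ z : k, algebraMap k[X] (RatFunc k) (C u * X ^ l ^ j) ≠
      algebraMap k (RatFunc k) z := by
    intro z hz
    have h1 : (C u * X ^ l ^ j : k[X]) = C z := RatFunc.algebraMap_injective k hz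
    rw [h1, natDegree_C] at hmd
    exact (pow_pos hl.pos j).ne hmd
  have hz : total c d α β (algebraMap k[X] (RatFunc k) (C u * X ^ l ^ j)) ≤ R := by
    rw [total_eq]
    have e2 : aeval (algebraMap k[X] (RatFunc k) (C u * X ^ l ^ j)) (CT.pD c d α β) =
        algebraMap k[X] (RatFunc k) ((CT.pD c d α β).comp (C u * X ^ l ^ j)) := by
      rw [aeval_algebraMap_apply, ← comp_eq_aeval]
    have h1 : 3 * Pool.Agent.TH180.R4.zSum k (algebraMap k[X] (RatFunc k)
        ((CT.pD c d α β).comp (C u * X ^ l ^ j))) ≤ (CT.pD c d α β).natDegree :=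
      CT.zSum_comp (m := C u * X ^ l ^ j) (by rw [hmd]; exact hlodd) (CT.pD c d α β) hp0
        (fun π hπ hdv => ⟨hirr j π hπ hdv, CT.three_dvd h6 hm hcop hπ hdv⟩)
    have h2 : CT.pSum k (CT.dg α β) (algebraMap k[X] (RatFunc k) (C u * X ^ l ^ j)) = 0 :=
      CT.pSum_poly (CT.dg α β) (C u * X ^ l ^ j : k[X])
    rw [e2, h2, add_zero]
    rw [hpd] at h1
    omega
  exact ((common Pool.Agent.TH958.T4.isCurveField_rat h6 hn hf (rat_ok h6)).2.2.2 R hR).2 hz

end proof

/-- Let `k` be a finite field of characteristic at least `5` with `q` elements, `K` the function field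
of a curve over `k`, and `L` the extension of `K` by the constants of degree three.

(1) For every elliptic curve `E : y ^ 2 = x ^ 3 + a x + b` over `K` with a point of order two over `L`
and none over `K` the order of vanishing of `L(T, E)` at `1 / q` is at most the sum of the weights of
the bad places of degree divisible by three (`2 ^ v₂(deg v)` for multiplicative, `2 · 2 ^ v₂(deg v)` for
additive reduction), plus the difference of the multiplicities of the root `1` modulo two of the
numerators of the zeta functions of `L` and `K`.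

(2) Assume that this difference is zero (the quotient of the class numbers of `L` and `K` is odd). Let
`X ^ 3 + c X + d` be irreducible over `k`, `α`, `β` in `k[T]` coprime and not both constant, and `f` in
`K` not constant. Then the curve `E_f`, the points of order two of which have the abscissas
`α(f) θ + β(f) (3 θ ^ 2 + 2 c)` with the three roots `θ`, satisfies `Conclusions`.

(3) The rank of `E` over `k(T)` is at least the larger of the degrees of `α` and `β` if `α = d`,
`β = d T` (rank one), and if `α = m(r) + 3 m'(r) T + 18 r T ^ 2`, `β = -3 T ^ 2` for some `r` in `k`,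
where `m = X ^ 3 + c X + d` (rank two).

(4) `K = k(t)` satisfies the condition on the class numbers. If the rank of `E` over `k(T)` is at least
the larger degree `R` of `α` and `β`, and a prime `l > 3 R` divides `q - 1`, then `RankAndOrder` holds
for `E_f` over `k(t)`, `f = u t ^ (l ^ j)`, for some `u` not zero and all `j`. -/
theorem result :
    (∀ (k K L : Type) [Field k] [Finite k] [Field K] [Algebra k K] [Field L] [Algebra k L]
      [Algebra K L] [IsScalarTower k K L], (6 : k) ≠ 0 → IsCurveField k K →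
      IsCubicConstExt k K L → ∀ PK PL : ℤ[X], S.IsZetaNum k K PK → S.IsZetaNum k L PL →
      ∀ a b : K, (∀ x : K, x ^ 3 + a * x + b ≠ 0) →
      (∃ x : L, x ^ 3 + algebraMap K L a * x + algebraMap K L b = 0) →
      ∀ m : ℕ, S.VanishesTo k a b m →
        m + muTwo PK ≤ muTwo PL + ∑ᶠ v : FF.Place k K, badWeight v a b) ∧
    (∀ (k K : Type) [Field k] [Finite k] [Field K] [Algebra k K], (6 : k) ≠ 0 → IsCurveField k K →
      OddClassQuotient k K → ∀ (c d : k) (α β : k[X]), Nice c d α β →
      ∀ f : K, (∀ z : k, f ≠ algebraMap k K z) → Conclusions c d α β f) ∧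
    (∀ (k : Type) [Field k] [Finite k], (6 : k) ≠ 0 → ∀ c d : k, (∀ x : k, x ^ 3 + c * x + d ≠ 0) →
      IsFull c d (C d) (C d * X) 1 ∧
      ∀ r : k, IsFull c d
        (C (r ^ 3 + c * r + d) + C (3 * (3 * r ^ 2 + c)) * X + C (18 * r) * X ^ 2)
        (C (-3) * X ^ 2) 2) ∧
    ∀ (k : Type) [Field k] [Finite k], (6 : k) ≠ 0 →
      OddClassQuotient k (RatFunc k) ∧
      ∀ (c d : k) (α β : k[X]) (R : ℕ), IsFull c d α β R → ∀ l : ℕ, l.Prime → 3 * R < l →
        l ∣ Nat.card k - 1 → PowersOK c d α β R l := by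
  refine ⟨?_, ?_, ?_, ?_⟩
  · intro k K L _ _ _ _ _ _ _ _ h6 hK hL PK PL hPK hPL a b hno ⟨e, he⟩ m hm
    exact Pool.Agent.Run7.h652.CT.bound_int h6 hK hL.1 hL.2 hPK hPL hno he m hm
  · intro k K _ _ _ _ h6 hK hL c d α β h f hf
    exact common hK h6 h hf hL
  · intro k _ _ h6 c d hm
    exact ⟨full_one h6 hm, fun r => full_two h6 hm r⟩
  · intro k _ _ h6
    exact ⟨rat_ok h6, fun c d α β R hF l hl hRl hd => powers h6 hF hl hRl hd⟩

end Pool.Agent.Results.MP_ff7320_nt.ConstantTwoDivision
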