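import Pool.Agent.Run7.h905.DK.Di

/-!
# Elliptic curves of rank exactly one in cubic pencils

Let `k` be a field, `K = k(t)`, `α` in `k` and `b` in `k[t]` with `Q = b ^ 3 + α b - t` irreducible. Let
`E` be the elliptic curve

  `Q y ^ 2 = x ^ 3 + α x - t`,

the quadratic twist of `y ^ 2 = x ^ 3 + α x - t` by `Q` (for `α ≠ 0`, `6 ≠ 0` the `j`-invariant is not
constant). It has the point `P = (b, 1)`.

Theorem. 1. Let `k` be perfect of characteristic different from 2 and 3, and suppose that
`z ^ 2 + b z + b ^ 2 + α` has no zero modulo `Q`. Then `E(K)` has no element of order two,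
`E(K) / 2 E(K)` has two elements, generated by `P`, so that the rank is exactly one, and the 2-primary
part of the Tate-Shafarevich group of `E` over `K` is zero.

2. Let `m ≥ 1`. For all large finite fields `k` with `q` elements, `3 m ∣ q - 1`, of characteristic not
dividing `6 (3 m - 1)`, for ALL `α ≠ 0` and ALL polynomials `b₁` of degree `m`, for all but at most
`3 m + 1` elements `λ` of `k` at least `q / (2 (3 m + 2) ^ (3 m + 2))` of the `q` elements `μ` of `k` are
such that `b = λ b₁ + μ` has these properties (so a positive proportion of all `b` of degree `m`), and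
this over ALL the fields `k'(t)`, `k'` a finite extension of `k` of degree prime to `6 m`: there `Q`
remains irreducible, the rank is exactly one, and the 2-primary part of the Tate-Shafarevich group is
zero.

By the theorem of Artin, Tate and Milne (not formalised) these curves satisfy the full conjecture of
Birch and Swinnerton-Dyer over all these fields, with rank and order of vanishing one. The degree of `Q`
is `3 m`, so the surfaces are of arbitrarily large genus. The curves have no rational point of order two;
in the starting results on this page there is rational torsion, or the rank is zero.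

Proof. The descent by means of the divisors on `x ^ 3 + α x = t` (`TwistsByPrimes`): the curve
`x ^ 3 + α x = t` is an affine line, so the 2-Selmer group is controlled by the places over `Q`, there are
two, and the point `P` is not divisible by two. For the second part one needs a form of Chebotarev's
theorem over `k(μ)`: `Q` is irreducible if and only if the polynomial `x - b(x ^ 3 + α x)` is
irreducible, and then `z ^ 2 + b z + b ^ 2 + α` has no zero modulo `Q` if and only if the norm
`(g(c) - μ) (g(-c) - μ)`, `3 c ^ 2 = - 4 α`, of its discriminant is not a square in `k`; the quadratic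
extension of `k(μ)` defined by it is ramified where the splitting field of `g(x) - μ` is not.
-/

set_option autoImplicit false
set_option linter.all false

open Polynomial
open scoped Classical

namespace Pool.Agent.Results.MP_ff7320_nt.RankOneCubicPencils

open Pool.Agent.N352.Sha (ShaTrivial)

section defs

/-- The polynomial `Q = b ^ 3 + α b - t`. -/
noncomputable def Q {k : Type} [Field k] (α : k) (b : k[X]) : k[X] := b ^ 3 + C α * b - X

variable {k : Type} (K : Type) [Field k] [Field K] [Algebra k[X] K]

/-- The curve `E : Q y ^ 2 = x ^ 3 + α x - t` in the form `Y ^ 2 = X ^ 3 + α Q ^ 2 X - t Q ^ 3`,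
`X = Q x`, `Y = Q ^ 2 y`. -/
noncomputable def curve (α : k) (b : k[X]) : WeierstrassCurve K :=
  ⟨0, 0, 0, algebraMap k[X] K (C α * Q α b ^ 2), algebraMap k[X] K (-X * Q α b ^ 3)⟩

/-- The polynomial `X ^ 3 + α Q ^ 2 X - t Q ^ 3`; `J 2 (cubic K α b) L` is the Picard group of the affine
coordinate ring of `E` over `L`, i.e. `E(L)`. -/
noncomputable def cubic (α : k) (b : k[X]) : K[X] :=
  X ^ 3 + C (algebraMap k[X] K (C α * Q α b ^ 2)) * X + C (algebraMap k[X] K (-X * Q α b ^ 3))

/-- The group `G` has no element of order two, `P` is not in `2 G`, every element is in `2 G` or in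
`P + 2 G`, and the rank is one if `G` is finitely generated. -/
structure RankOne {G : Type} [AddCommGroup G] (P : G) : Prop where
  torsion : ∀ R : G, 2 • R = 0 → R = 0
  not_double : ∀ R : G, P ≠ 2 • R
  generates : ∀ R : G, ∃ S : G, R = 2 • S ∨ R = P + 2 • S
  rank : AddGroup.FG G → Module.finrank ℤ G = 1

/-- `Q` is irreducible, `E(K)` is of rank one with the generator `P = (b Q, Q ^ 2)` modulo 2, and the
2-primary part of the Tate-Shafarevich group of `E` is zero: every continuous cocycle of the absolute
Galois group of `K` with values in `E(K^sep)` whose class is of 2-power order and zero over the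
completions of `K` at all the places except possibly `t = ∞` is a coboundary. -/
structure Good [IsFractionRing k[X] K] (α : k) (b : k[X]) : Prop where
  prime : Irreducible (Q α b)
  point : ∃ h : (curve K α b).toAffine.Nonsingular (algebraMap k[X] K (b * Q α b))
    (algebraMap k[X] K (Q α b ^ 2)), RankOne (WeierstrassCurve.Affine.Point.some _ _ h)
  sha : ShaTrivial 2 (cubic K α b) k[X]

/-- `Good` over the fields `k'(t)` for all the finite extensions `k'` of `k` of degree prime to `N`. -/
def GoodOverAll (N : ℕ) (α : k) (b : k[X]) : Prop :=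
  ∀ (k' K' : Type) [Field k'] [Algebra k k'] [FiniteDimensional k k'] [Field K'] [Algebra k'[X] K']
    [IsFractionRing k'[X] K'], Nat.Coprime N (Module.finrank k k') →
    Good K' (algebraMap k k' α) (b.map (algebraMap k k'))

end defs

open Run7.h905.DK

theorem good_of {k : Type} (K : Type) [Field k] [PerfectField k] [Field K] [Algebra k[X] K]
    [IsFractionRing k[X] K] {α : k} {b : k[X]} (h6 : (6 : k) ≠ 0) (hQ : Irreducible (Q α b))
    (hr : ∀ z : k[X], ¬ Q α b ∣ z ^ 2 + b * z + b ^ 2 + C α) : Good K α b := by
  obtain ⟨⟨h1, h2⟩, h3⟩ := crit3 K h6 hQ hr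
  refine ⟨hQ, ⟨h1, ⟨h2.torsion, h2.not_double, h2.generates, h2.rank⟩⟩, ?_⟩
  rw [twist3] at h3
  exact h3

/-- The `j`-invariant is not constant. -/
theorem j_ne {k : Type} (K : Type) [Field k] [Field K] [Algebra k[X] K] [IsFractionRing k[X] K]
    {α : k} {b : k[X]} (h6 : (6 : k) ≠ 0) (hα : α ≠ 0) (hQ : Q α b ≠ 0) (c : k) :
    (curve K α b).c₄ ^ 3 ≠ algebraMap k[X] K (C c) * (curve K α b).Δ := by
  have h2 : (2 : k) ≠ 0 := by
    intro h
    apply h6
    have : (6 : k) = 2 * 3 := by norm_num
    rw [this, h, zero_mul]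
  have h3 : (3 : k) ≠ 0 := by
    intro h
    apply h6
    have : (6 : k) = 2 * 3 := by norm_num
    rw [this, h, mul_zero]
  intro h
  have h4 : (curve K α b).c₄ = algebraMap k[X] K (-48 * C α * Q α b ^ 2) := by
    unfold curve WeierstrassCurve.c₄ WeierstrassCurve.b₂ WeierstrassCurve.b₄
    simp only [map_mul, map_neg, map_pow, map_ofNat]
    ring
  have h5 : (curve K α b).Δ = algebraMap k[X] K (-16 * Q α b ^ 6 * (4 * C α ^ 3 + 27 * X ^ 2)) :=
    E3_disc K α (Q α b)
  rw [h4, h5, ← map_pow, ← map_mul] at h
  have h7 := IsFractionRing.injective k[X] K h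
  have h8 : (16 * Q α b ^ 6) * (C (-(6912 * α ^ 3) + c * (4 * α ^ 3)) + C (27 * c) * X ^ 2) = 0 := by
    simp only [C_add, C_mul, C_neg, C_pow, C_ofNat]
    linear_combination h7
  have h16 : (16 * Q α b ^ 6 : k[X]) ≠ 0 := by
    refine mul_ne_zero ?_ (pow_ne_zero _ hQ)
    have : (16 : k[X]) = C (2 ^ 4) := by
      rw [C_pow, C_ofNat]
      norm_num
    rw [this, Ne, C_eq_zero]
    exact pow_ne_zero _ h2
  have h9 := (mul_eq_zero.1 h8).resolve_left h16
  have h10 := congrArg (fun p => p.coeff 2) h9
  have h11 := congrArg (fun p => p.coeff 0) h9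
  simp only [coeff_add, coeff_C_mul, coeff_X_pow, coeff_C, coeff_zero] at h10 h11
  norm_num at h10 h11
  have h12 : c = 0 := by
    rcases h10 with h10 | h10
    · exfalso
      have h13 : (3 : k) ^ 3 = 0 := by
        rw [← h10]
        norm_num
      exact h3 ((pow_eq_zero_iff three_ne_zero).1 h13)
    · exact h10
  rw [h12, zero_mul, add_zero, neg_eq_zero] at h11
  rcases mul_eq_zero.1 h11 with h13 | h13
  · have h14 : (2 : k) ^ 8 * 3 ^ 3 = 0 := by
      rw [← h13]
      norm_num
    exact mul_ne_zero (pow_ne_zero _ h2) (pow_ne_zero _ h3) h14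
  · exact hα ((pow_eq_zero_iff three_ne_zero).1 h13)

theorem result :
    -- the criterion
    (∀ (k K : Type) [Field k] [PerfectField k] [Field K] [Algebra k[X] K] [IsFractionRing k[X] K],
      (6 : k) ≠ 0 → ∀ (α : k) (b : k[X]), Irreducible (Q α b) →
      (∀ z : k[X], ¬ Q α b ∣ z ^ 2 + b * z + b ^ 2 + C α) → Good K α b ∧
      (α ≠ 0 → ∀ c : k, (curve K α b).c₄ ^ 3 ≠ algebraMap k[X] K (C c) * (curve K α b).Δ)) ∧
    -- positive proportion in all pencils
    (∀ m : ℕ, 1 ≤ m → ∃ q₀ : ℕ, ∀ (k : Type) [Field k] [Finite k], 3 * m ∣ Nat.card k - 1 →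
      ((6 * (3 * m - 1) : ℕ) : k) ≠ 0 → q₀ < Nat.card k → ∀ α : k, α ≠ 0 →
      ∀ b₁ : k[X], b₁.natDegree = m → ∃ bad : Finset k, bad.card ≤ 3 * m + 1 ∧ ∀ l ∉ bad,
        Nat.card k ≤ 2 * (3 * m + 2) ^ (3 * m + 2) *
          {μ : k | GoodOverAll (6 * m) α (C l * b₁ + C μ)}.ncard) := by
  refine ⟨?_, ?_⟩
  · intro k K _ _ _ _ _ h6 α b hQ hr
    exact ⟨good_of K h6 hQ hr, fun hα c => j_ne K h6 hα hQ.ne_zero c⟩
  · intro m hm
    obtain ⟨C0, hC0⟩ := pencil3 m hm
    refine ⟨C0, ?_⟩
    intro k _ _ hdiv h6 hcard α hα b hb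
    obtain ⟨bad, h1, h2⟩ := hC0 k hdiv h6 hcard α hα b hb
    refine ⟨bad, h1, fun l hl => ?_⟩
    refine (h2 l hl).trans (Nat.mul_le_mul_left _ (Set.ncard_le_ncard ?_ (Set.toFinite _)))
    intro μ hμ k' K' _ _ _ _ _ _ hc
    obtain ⟨h3, h4⟩ := hμ k' hc
    haveI : Finite k' := Module.finite_of_finite k
    refine good_of K' ?_ h3 h4
    rw [Nat.cast_mul] at h6
    have h5 : (6 : k) ≠ 0 := by
      have := left_ne_zero_of_mul h6
      exact_mod_cast this
    rw [← map_ofNat (algebraMap k k') 6]
    exact (map_ne_zero (algebraMap k k')).2 h5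

end Pool.Agent.Results.MP_ff7320_nt.RankOneCubicPencils
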