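import Pool.Agent.Run7.h375.UC.Fin

/-!
# Birch and Swinnerton-Dyer for all twists over all extensions

By the theorem of Artin, Tate and Milne quoted in the problem file, Q1 for `E / K` is equivalent to
the finiteness of `Ш(E/K)`, that is, to `T_ℓ Ш(E/K) = 0` for one prime `ℓ` (any prime, also the
characteristic).

Let `K` be a global function field of ANY characteristic, a finite separable extension of `k(x)`,
and `E / K` an elliptic curve.

A *free step* is an extension `L / F` of finite separable extensions of `K` which is Galois of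
prime degree, unramified at EVERY place, and in which all places of `F` above `x = ∞` or above a
prime dividing a given polynomial `M ≠ 0` (for example all places of bad reduction) split
completely.

The theorem: `T_ℓ Ш(E'/K') = 0` for ALL finite extensions `K' / K`, separable or not, and ALL
elliptic curves `E' / K'` with `j(E') = j(E)` (all twists of `E`) if and only if `T_ℓ Ш(E/K) = 0`
and `T_ℓ Ш(E) ⊗ ℚ` does not grow in free steps.
-/

set_option autoImplicit false

namespace Pool.Agent.Results.MP_ff7320_nt.TwistsAndExtensions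

open IntermediateField Module Polynomial WeierstrassCurve
open scoped Pointwise Classical

section defs

variable {K Ω : Type} [Field K] [Field Ω] [Algebra K Ω]

/-- The group `E(Ω)`. -/
abbrev Points (E : WeierstrassCurve K) (Ω : Type) [Field Ω] [Algebra K Ω] : Type :=
  (E.baseChange Ω).toAffine.Point

/-- The action of `σ` on `E(Ω)`, on the coordinates of the points. -/
noncomputable def act (E : WeierstrassCurve K) (σ : Gal(Ω/K)) : Points E Ω →+ Points E Ω :=
  Affine.Point.map (W' := E.toAffine) σ.toAlgHom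

/-- `c` is a coboundary on the subgroup `H`. -/
def IsCoboundary (E : WeierstrassCurve K) (H : Subgroup Gal(Ω/K))
    (c : Gal(Ω/K) → Points E Ω) : Prop :=
  ∃ P : Points E Ω, ∀ σ ∈ H, c σ = act E σ P - P

/-- `c` represents a class of `Ш(E/F)`: on `Gal(Ω/F)` it is a continuous cocycle, and it is a
coboundary on all decomposition groups (the stabilizers of the nontrivial valuation rings of `Ω`).
Only the values of `c` on `Gal(Ω/F)` matter. -/
structure IsSha (E : WeierstrassCurve K) (F : IntermediateField K Ω)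
    (c : Gal(Ω/K) → Points E Ω) : Prop where
  cocycle : ∀ σ ∈ F.fixingSubgroup, ∀ τ ∈ F.fixingSubgroup, c (σ * τ) = c σ + act E σ (c τ)
  continuous : ∃ M : IntermediateField K Ω, FiniteDimensional K M ∧
    ∀ σ ∈ F.fixingSubgroup, σ ∈ M.fixingSubgroup → c σ = 0
  locallyTrivial : ∀ A : ValuationSubring Ω, A ≠ ⊤ →
    IsCoboundary E (F.fixingSubgroup ⊓ MulAction.stabilizer Gal(Ω/K) A) c

/-- `x` represents an element of `T_ℓ Ш(E/F)`: classes with `x 0 = 0` and `ℓ x (i + 1) = x i`. -/
structure IsTateElement (ℓ : ℕ) (E : WeierstrassCurve K) (F : IntermediateField K Ω)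
    (x : ℕ → Gal(Ω/K) → Points E Ω) : Prop where
  sha : ∀ i, IsSha E F (x i)
  zero : IsCoboundary E F.fixingSubgroup (x 0)
  step : ∀ i, IsCoboundary E F.fixingSubgroup (ℓ • x (i + 1) - x i)

/-- `T_ℓ Ш(E/F) = 0`. -/
def TateModuleZero (ℓ : ℕ) (E : WeierstrassCurve K) (F : IntermediateField K Ω) : Prop :=
  ∀ x, IsTateElement ℓ E F x → ∀ i, IsCoboundary E F.fixingSubgroup (x i)

/-- `T_ℓ Ш(E/K) = 0`. -/
def ZeroOverBase (ℓ : ℕ) (E : WeierstrassCurve K) (Ω : Type) [Field Ω] [Algebra K Ω] : Prop :=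
  TateModuleZero ℓ E (⊥ : IntermediateField K Ω)

/-- Every element of `T_ℓ Ш(E/L)` has a nonzero multiple that comes from `T_ℓ Ш(E/F)`. -/
def NoGrowth (ℓ : ℕ) (E : WeierstrassCurve K) (F L : IntermediateField K Ω) : Prop :=
  ∀ x, IsTateElement ℓ E L x → ∃ m : ℕ, m ≠ 0 ∧ ∃ y, IsTateElement ℓ E F y ∧
    ∀ i, IsCoboundary E L.fixingSubgroup (m • x i - y i)

/-- A free step: `L / F` is finite over `K`, Galois of prime degree, unramified everywhere, and all
places of `F` with a pole at `x` or a zero at `m` are completely split in `L`. -/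
structure FreeStep (x m : Ω) (F L : IntermediateField K Ω) : Prop where
  finite : FiniteDimensional K L
  le : F ≤ L
  galois : ∀ σ ∈ F.fixingSubgroup, ∀ y ∈ L, σ y ∈ L
  prime : ∃ r : ℕ, r.Prime ∧ finrank K L = r * finrank K F
  unramified : ∀ A : ValuationSubring Ω, ∀ σ ∈ F.fixingSubgroup,
    σ • A = A → (∀ y ∈ A, σ y - y ∈ A.nonunits) → σ ∈ L.fixingSubgroup
  splits : ∀ A : ValuationSubring Ω, x ∉ A ∨ m ∈ A.nonunits →
    ∀ σ ∈ F.fixingSubgroup, σ • A = A → σ ∈ L.fixingSubgroup

/-- `T_ℓ Ш(E) ⊗ ℚ` does not grow in free steps. -/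
def NoGrowthInFreeSteps (ℓ : ℕ) (E : WeierstrassCurve K) (x m : Ω) : Prop :=
  ∀ F L : IntermediateField K Ω, FreeStep x m F L → NoGrowth ℓ E F L

/-- `T_ℓ Ш(E'/K') = 0` for all elliptic curves `E' / K'` with `j`-invariant `j`. -/
def ZeroForInvariant (K' Ω' : Type) [Field K'] [Field Ω'] [Algebra K' Ω'] (ℓ : ℕ) (j : K') : Prop :=
  ∀ (E' : WeierstrassCurve K') [E'.IsElliptic], E'.j = j → ZeroOverBase ℓ E' Ω'

/-- `T_ℓ Ш(E'/K') = 0` for all finite extensions `K' / K`, separable or not, and all elliptic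
curves `E' / K'` with `j(E') = j(E)`. -/
def ZeroForAllTwists (ℓ : ℕ) (E : WeierstrassCurve K) [E.IsElliptic] : Prop :=
  ∀ (K' Ω' : Type) [Field K'] [Field Ω'] [Algebra K K'] [FiniteDimensional K K'] [Algebra K' Ω']
    [IsSepClosure K' Ω'], ZeroForInvariant K' Ω' ℓ (algebraMap K K' E.j)

/-- The polynomial `f` in `k[x]` as an element of `Ω`, where `K` is a finite extension of
`k(x) = RatFunc k` and `Ω` an extension of `K`. -/
noncomputable def embed {k : Type} [Field k] (K Ω : Type) [Field K] [Field Ω]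
    [Algebra (RatFunc k) K] [Algebra K Ω] (f : k[X]) : Ω :=
  algebraMap K Ω (algebraMap (RatFunc k) K (algebraMap k[X] (RatFunc k) f))

end defs

section bridge

open Run7.h375.SH Run7.h375.UC

variable {K Ω : Type} [Field K] [Field Ω] [Algebra K Ω] [IsGalois K Ω]
  {E : WeierstrassCurve K} {F L : IntermediateField K Ω} {ℓ : ℕ}

set_option linter.unusedSectionVars false

theorem sha_iff {c : Gal(Ω/K) → Points E Ω} :
    IsSha E F c ↔ Sha (actH (Ω := Ω) E) (dec K Ω) F.fixingSubgroup c := by
  constructor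
  · intro h
    obtain ⟨M, hM, h1⟩ := h.continuous
    exact ⟨h.cocycle, ⟨M.fixingSubgroup, M.fixingSubgroup_isOpen, fun σ h2 h3 => h1 σ h3 h2⟩,
      fun w => h.locallyTrivial w.1 w.2⟩
  · intro h
    obtain ⟨U, hU, h1⟩ := h.smooth
    obtain ⟨M, hM, h2⟩ := exists_fd_of_open hU
    exact ⟨h.coc, ⟨M, hM, fun σ h3 h4 => h1 σ (h2 h4) h3⟩, fun A hA => h.loc ⟨A, hA⟩⟩

theorem tate_iff {x : ℕ → Gal(Ω/K) → Points E Ω} :
    IsTateElement ℓ E F x ↔ Tate (actH (Ω := Ω) E) (dec K Ω) ℓ F.fixingSubgroup x :=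
  ⟨fun h => ⟨fun i => sha_iff.1 (h.sha i), h.zero, h.step⟩,
    fun h => ⟨fun i => sha_iff.2 (h.sha i), h.zero, h.step⟩⟩

theorem zero_iff : TateModuleZero ℓ E F ↔
    Free (actH (Ω := Ω) E) (dec K Ω) ℓ F.fixingSubgroup :=
  forall_congr' fun _ => imp_congr tate_iff Iff.rfl

theorem growth_iff : NoGrowth ℓ E F L ↔
    Run7.h375.SH.NoGrowth (actH (Ω := Ω) E) (dec K Ω) ℓ F.fixingSubgroup L.fixingSubgroup :=
  forall_congr' fun _ => imp_congr tate_iff (exists_congr fun _ => and_congr Iff.rfl
    (exists_congr fun _ => and_congr tate_iff Iff.rfl))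

theorem zero_bot_iff : ZeroOverBase ℓ E Ω ↔
    Free (actH (Ω := Ω) E) (dec K Ω) ℓ (⊤ : Subgroup Gal(Ω/K)) := by
  rw [ZeroOverBase, zero_iff, IntermediateField.fixingSubgroup_bot]

theorem reduction {x m : Ω} (hB : HasBase K Ω fun A => x ∉ A ∨ m ∈ A.nonunits) (hℓ : ℓ.Prime)
    (E : WeierstrassCurve K) :
    (∀ F : IntermediateField K Ω, FiniteDimensional K F → TateModuleZero ℓ E F) ↔
      ZeroOverBase ℓ E Ω ∧ NoGrowthInFreeSteps ℓ E x m := by
  constructor
  · intro h
    refine ⟨h ⊥ inferInstance, fun F L hs => ?_⟩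
    have hL := hs.finite
    rw [growth_iff]
    exact NoGrowth.of_free (zero_iff.1 (h L hL))
  · rintro ⟨h0, h1⟩ F hF
    rw [zero_iff]
    refine red_main hB _ _ hℓ (zero_bot_iff.1 h0) ?_ F
    intro F L hL hle hn hr hu hs
    exact growth_iff.1 (h1 F L ⟨hL, hle, hn, hr, fun A σ h2 h3 h4 => hu A σ h2 ⟨h3, h4⟩,
      fun A h2 σ h3 h4 => hs A h2 σ h3 h4⟩)

theorem hasBase {k K Ω : Type} [Field k] [Finite k] [Field K] [Field Ω] [Algebra (RatFunc k) K]
    [FiniteDimensional (RatFunc k) K] [Algebra.IsSeparable (RatFunc k) K] [Algebra K Ω]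
    [hΩ : IsSepClosure K Ω] {M : k[X]} (hM : M ≠ 0) :
    HasBase K Ω fun A => embed (k := k) K Ω X ∉ A ∨ embed K Ω M ∈ A.nonunits := by
  let _ : Algebra (RatFunc k) Ω := ((algebraMap K Ω).comp (algebraMap (RatFunc k) K)).toAlgebra
  have : IsScalarTower (RatFunc k) K Ω := IsScalarTower.of_algebraMap_eq fun _ => rfl
  have : Algebra.IsSeparable K Ω := hΩ.separable
  have : Algebra.IsSeparable (RatFunc k) Ω := Algebra.IsSeparable.trans (RatFunc k) K Ω
  have : IsSepClosed Ω := hΩ.sep_closed
  have : IsSepClosure (RatFunc k) Ω := ⟨inferInstance, inferInstance⟩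
  have : IsGalois (RatFunc k) Ω := IsSepClosure.isGalois
  have : IsGalois K Ω := IsSepClosure.isGalois
  exact HasBase.tower (K₀ := RatFunc k) (hasBase_ff (k := k) (K := RatFunc k) (Ω := Ω) hM)

end bridge

section main

open Run7.h375.SH Run7.h375.UC

set_option linter.unusedSectionVars false

variable {K Ω : Type} [Field K] [Field Ω] [Algebra K Ω] [hΩ : IsSepClosure K Ω] {ℓ : ℕ}
  {E : WeierstrassCurve K} [E.IsElliptic]

theorem forward (h : ZeroForAllTwists ℓ E) (F : IntermediateField K Ω)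
    [FiniteDimensional K F] : TateModuleZero ℓ E F := by
  have hG : IsGalois K Ω := IsSepClosure.isGalois
  have hsc : IsSepClosed Ω := hΩ.sep_closed
  have hsep : Algebra.IsSeparable F Ω := Algebra.isSeparable_tower_top_of_isSeparable K F Ω
  have hSF : IsSepClosure F Ω := ⟨hsc, hsep⟩
  have h4 := h F Ω (E.map (algebraMap K F)) (map_j _ _)
  rw [zero_iff]
  exact free_base _ F (zero_bot_iff.1 h4)

theorem backward {p : ℕ} (hpp : p.Prime) [CharP K p] (hℓ : ℓ.Prime)
    (h : ∀ F : IntermediateField K Ω, FiniteDimensional K F → TateModuleZero ℓ E F) :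
    ZeroForAllTwists ℓ E := by
  intro K' Ω' _ _ _ _ _ hΩ' E' _ hE'
  have hG : IsGalois K Ω := IsSepClosure.isGalois
  have hG' : IsGalois K' Ω' := IsSepClosure.isGalois
  have hsc' : IsSepClosed Ω' := hΩ'.sep_closed
  let _ : Algebra K Ω' := ((algebraMap K' Ω').comp (algebraMap K K')).toAlgebra
  have hst : IsScalarTower K K' Ω' := IsScalarTower.of_algebraMap_eq fun _ => rfl
  rw [zero_bot_iff]
  have hj2 : (E'.map (algebraMap K' Ω')).j =
      ((E.map (algebraMap K K')).map (algebraMap K' Ω')).j := by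
    rw [map_j, map_j, map_j, hE']
  obtain ⟨V, hV⟩ := exists_variableChange_of_j_eq _ _ hj2
  refine free_of_iso V hV hℓ fun L hL => free_of_sep hpp _ L hℓ ?_
  let S := inter K L
  have hS : FiniteDimensional K S := inter_fd L
  let e : Ω ≃ₐ[K] separableClosure K Ω' := IsSepClosure.equiv K _ _
  have hfd2 : FiniteDimensional K (S.comap e.toAlgHom) := by
    let f : (S.comap e.toAlgHom) →ₗ[K] S :=
      { toFun := fun x => ⟨e x, x.2⟩
        map_add' := fun x y => Subtype.ext (map_add e (x : Ω) (y : Ω))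
        map_smul' := fun c x => Subtype.ext (map_smul e c (x : Ω)) }
    refine FiniteDimensional.of_injective f fun x y hxy => ?_
    exact Subtype.ext (e.injective (congrArg Subtype.val hxy))
  exact free_change e _ S hℓ (zero_iff.1 (h _ hfd2))

/-- **All twists over all extensions.**  `K` is a global function field, a finite separable
extension of `k(x)`, `Ω` a separable closure, `E / K` an elliptic curve, `ℓ` a prime and `M` a
nonzero polynomial. -/
theorem result (k K Ω : Type) [Field k] [Finite k] [Field K] [Field Ω] [Algebra (RatFunc k) K]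
    [FiniteDimensional (RatFunc k) K] [Algebra.IsSeparable (RatFunc k) K] [Algebra K Ω]
    [IsSepClosure K Ω] (E : WeierstrassCurve K) [E.IsElliptic] (ℓ : ℕ) (hℓ : ℓ.Prime) (M : k[X])
    (hM : M ≠ 0) :
    ZeroForAllTwists ℓ E ↔ ZeroOverBase ℓ E Ω ∧
      NoGrowthInFreeSteps ℓ E (embed (k := k) K Ω X) (embed K Ω M) := by
  have hG : IsGalois K Ω := IsSepClosure.isGalois
  obtain ⟨p, hp⟩ := CharP.exists k
  have hpp : p.Prime := CharP.char_is_prime k p
  have hp1 : CharP (RatFunc k) p :=
    charP_of_injective_algebraMap (algebraMap k (RatFunc k)).injective p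
  have hp2 : CharP K p :=
    charP_of_injective_algebraMap (algebraMap (RatFunc k) K).injective p
  have hred := reduction (hasBase (k := k) (K := K) (Ω := Ω) hM) hℓ E
  exact ⟨fun h => hred.1 fun F hF => forward h F, fun h => backward hpp hℓ (hred.2 h)⟩

end main

end Pool.Agent.Results.MP_ff7320_nt.TwistsAndExtensions
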