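import Pool.Agent.Run7.h875.TM.Fin

/-!
# Trivial 2-primary parts of Tate-Shafarevich groups for a positive proportion of the quadratic twists,
# over all Galois extensions of 2-power degree which are split at the bad places, at once

Let `k` be any finite field of characteristic at least five, `q` its order, `K = k(t)`, and let
`E : y ^ 2 = x ^ 3 + a x + b` (`a`, `b` in `k[t]`) be any elliptic curve over `K` without `K`-rational
points of order two which has a prime `p` of `k[t]` dividing the discriminant `4 a ^ 3 + 27 b ^ 2`
exactly once. For a squarefree polynomial `D` let `E_D : y ^ 2 = x ^ 3 + a D ^ 2 x + b D ^ 3` be the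
quadratic twist by `D`.

Let `Allowed K M a b D` be the class of the finite Galois extensions `M` of `K` with the conditions:
the place `∞` and the primes `P` of `k[t]` with `P ∣ D` or `P ^ 2 ∣ 4 a ^ 3 + 27 b ^ 2` split completely
in `M`; the other primes modulo which `x ^ 3 + a x + b` has a zero are unramified in `M`. There is no
condition at the inert primes (modulo which there is no zero; by Chebotarev's theorem a third or two
thirds of all the primes): the fields `M` of 2-power degree in this class have unbounded
degree and genus, arbitrary ramification at the inert primes, and are in general not abelian over `K`.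

Theorem. There are `c > 0` and `N` such that for every `n ≥ N` there are at least `c q ^ n` squarefree
polynomials `D` of degree `n` such that for ALL Galois extensions `M` of `K` of 2-power degree in
`Allowed K M a b D` the group `E_D(M)` is finite of odd order and the 2-primary part of the
Tate-Shafarevich group of `E_D` over `M` is zero. One may moreover prescribe the class of `D` in
`K_v^* / (K_v^*) ^ 2` at the place `v = ∞` and at any finite set `T` of places different from `p`.

By the theorems of Tate, Milne and Kato-Trihan the Tate-Shafarevich group of `E_D` over each of the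
fields `M` is then finite, and `E_D` over `M` satisfies the full conjecture of Birch and
Swinnerton-Dyer with rank and order of vanishing zero. (The abelian varieties `Res_{M / K} E_D`, of
unbounded dimension, have finite Tate-Shafarevich groups over `K`.) The case `M = K` is contained in
`MP_48b749_nt.SimultaneousTwists`.

The proof. From the counting in that theorem we take the triviality of the 2-Selmer group of `E_D` over
`K`, in the form of conditions on the elements `α` of the cubic field `L = K(θ)`: even valuations at the
primes with `P ∤ D`, `P ^ 2 ∤ Δ`, and at `∞` and at the other primes `v` the class `α` in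
`(L ⊗ K_v)^* / squares` is `D (x - θ)` for a point of `E_D(K_v)`. For a class in the 2-Selmer group over
`M` let `x` be its element of `M(θ)` modulo squares. It satisfies conditions of the same kind, where at
the places which split we have one condition for every embedding of `M` in `K_v`. These are stable
under `Gal(M(θ) / L)`, which permutes the embeddings, and if `x` is in `L` they imply the conditions over
`K`: at the unramified primes valuations do not change, at the inert primes the valuation is even because
the norm is a square, and at the split places a single embedding suffices. The descent of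
`N692.PM.Tow` along steps of degree two shows that `x` is a square.
-/

set_option autoImplicit false
set_option linter.all false

open Polynomial Filter IsDedekindDomain Pool.Agent.TH115.GD
open scoped Classical

namespace Pool.Agent.Results.MP_ff7320_nt.TwistsOverTwoExtensions

/-- The curve `y ^ 2 = x ^ 3 + a x + b` has no rational point of order two, and its discriminant is
divisible by the irreducible polynomial `p`, but not by its square. -/
structure IsData {k : Type} [Field k] (a b p : k[X]) : Prop where
  no_point_of_order_two : ∀ z : k[X], z ^ 3 + a * z + b ≠ 0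
  irreducible : Irreducible p
  dvd : p ∣ 4 * a ^ 3 + 27 * b ^ 2
  not_sq_dvd : ¬ p ^ 2 ∣ 4 * a ^ 3 + 27 * b ^ 2

/-- The curve `y ^ 2 = x ^ 3 + a D ^ 2 x + b D ^ 3` over the extension `M` of `k(t)`, the quadratic
twist by `D` of the curve `y ^ 2 = x ^ 3 + a x + b`. -/
noncomputable def twist {k : Type} [Field k] (M : Type) [Field M] [Algebra k[X] M]
    (a b D : k[X]) : WeierstrassCurve M :=
  ⟨0, 0, 0, algebraMap k[X] M (a * D ^ 2), algebraMap k[X] M (b * D ^ 3)⟩

/-- The conditions on the extension `M` of `K = k(t)`: `M` has embeddings over `K` in the completion of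
`K` at `∞` and in the completions at the primes of `k[t]` which divide `D` or whose square divides
`4 a ^ 3 + 27 b ^ 2` (if `M` is Galois over `K`, this means that these places split completely); the
other primes `P` of `k[t]` modulo which `x ^ 3 + a x + b` has a zero are unramified in the integral
closure of `k[t]` in `M`. -/
structure Allowed {k : Type} [Field k] (K M : Type) [Field K] [Algebra k[X] K]
    [IsFractionRing k[X] K] [Field M] [Algebra K M] [Algebra k[X] M] (a b D : k[X]) : Prop where
  split : ∀ v : HeightOneSpectrum k[X],
    D ∈ v.asIdeal ∨ 4 * a ^ 3 + 27 * b ^ 2 ∈ v.asIdeal ^ 2 →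
      Nonempty (M →ₐ[K] v.adicCompletion K)
  split_infty : Nonempty (M →ₐ[K] CompInf k K)
  unramified : ∀ P : k[X], Irreducible P → (∃ z : k[X], P ∣ z ^ 3 + a * z + b) → ¬ P ∣ D →
    ¬ P ^ 2 ∣ 4 * a ^ 3 + 27 * b ^ 2 →
    ∀ w : HeightOneSpectrum (integralClosure k[X] M),
      algebraMap k[X] (integralClosure k[X] M) P ∈ w.asIdeal →
        algebraMap k[X] (integralClosure k[X] M) P ∉ w.asIdeal ^ 2

/-- `Kv` is the completion of `K` at a place `v`. The cochain `f` of `Gal(Sep M / M)` with values in
`W(Sep M)` is a coboundary over the completions of the extension `M` of `K` at all the places above `v`: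
these completions are the fields `F` with `K`-homomorphisms from `Kv` and from `M` which are generated
by the images. -/
def TrivialAbove (K Kv : Type) {M : Type} [Field K] [Field Kv] [Field M] [Algebra K Kv]
    [Algebra K M] (W : WeierstrassCurve M) (f : (Sep M ≃ₐ[M] Sep M) → Pt W (Sep M)) : Prop :=
  ∀ (F : Type) [Field F] [Algebra K F] [Algebra Kv F] [Algebra M F] [IsScalarTower K Kv F]
    [IsScalarTower K M F], IntermediateField.adjoin Kv (Set.range (algebraMap M F)) = ⊤ →
    LocTriv W F (Sep F) f

/-- The 2-primary part of the Tate-Shafarevich group of `W` over the extension `M` of `K = k(t)` is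
zero: a continuous cocycle of `Gal(Sep M / M)` with values in `W(Sep M)` whose class is killed by a power
of two and which is a coboundary over the completions of `M` at all places (the places above the
maximal ideals of `k[t]` and above `∞`) is a coboundary. -/
def ShaTwoZero (k K : Type) {M : Type} [Field k] [Field K] [Algebra k[X] K]
    [IsFractionRing k[X] K] [Field M] [Algebra K M] (W : WeierstrassCurve M) : Prop :=
  ∀ f : (Sep M ≃ₐ[M] Sep M) → Pt W (Sep M), IsCoc W f →
    (∀ v : HeightOneSpectrum k[X], TrivialAbove K (v.adicCompletion K) W f) →
    TrivialAbove K (CompInf k K) W f →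
    (∃ (n : ℕ) (Q : Pt W (Sep M)), ∀ σ, 2 ^ n • f σ = act W (rs M σ) Q - Q) →
    ∃ Q : Pt W (Sep M), ∀ σ, f σ = act W (rs M σ) Q - Q

/-- For all the Galois extensions `M` of `K = k(t)` of 2-power degree which satisfy the conditions, the
group of `M`-rational points of the twist by `D` is finite of odd order, and the 2-primary part of the
Tate-Shafarevich group over `M` is zero. -/
def TrivialOverAll {k : Type} [Field k] (K : Type) [Field K] [Algebra k[X] K]
    [IsFractionRing k[X] K] (a b D : k[X]) : Prop :=
  ∀ (M : Type) [Field M] [Algebra K M] [Algebra k[X] M] [IsScalarTower k[X] K M]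
    [FiniteDimensional K M] [IsGalois K M] (m : ℕ), Module.finrank K M = 2 ^ m →
    Allowed K M a b D →
    Finite (Pt (twist M a b D) M) ∧ Odd (Nat.card (Pt (twist M a b D) M)) ∧
      ShaTwoZero k K (twist M a b D)

/-- The polynomials `D` and `D₀` have the same behaviour at `∞` and at the primes in `T`: we have
`D = D₀ D₁` with a polynomial `D₁` which is a square in the completions at these places (of even degree
and monic, and congruent to a square `z ^ 2` prime to `P` modulo the `P` in `T`). -/
def SameBehaviour {k : Type} [Field k] (T : Finset k[X]) (D₀ D : k[X]) : Prop :=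
  ∃ D₁ : k[X], D = D₀ * D₁ ∧ D₁.Monic ∧ Even D₁.natDegree ∧
    ∀ P ∈ T, ∃ z : k[X], ¬ P ∣ z ∧ P ∣ z ^ 2 - D₁

theorem result (k : Type) [Field k] [Finite k] (h6 : (6 : k) ≠ 0) (K : Type) [Field K]
    [Algebra k[X] K] [IsFractionRing k[X] K] (a b p : k[X]) (h : IsData a b p)
    (T : Finset k[X]) (hT : ∀ P ∈ T, Irreducible P ∧ ¬ P ∣ p) (D₀ : k[X])
    (hD₀ : Squarefree D₀) (hp : ¬ p ∣ D₀) :
    ∃ c : ℝ, 0 < c ∧ ∀ᶠ n : ℕ in atTop, Even (n + D₀.natDegree) →
      c * (Nat.card k : ℝ) ^ n ≤
        ({D : k[X] | Squarefree D ∧ D.natDegree = n ∧ SameBehaviour T D₀ D ∧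
          TrivialOverAll K a b D}.ncard : ℝ) := by
  have hD : Run7.h875.TS.Data (ι := Unit) (fun _ => a) (fun _ => b) (fun _ => p) :=
    ⟨fun i => Run7.h875.TS.irr_of_no_root h.no_point_of_order_two, fun i => h.irreducible,
      fun i => h.dvd, fun i => h.not_sq_dvd, fun i j hij => absurd (Subsingleton.elim i j) hij⟩
  obtain ⟨c, hc, N₀, hN⟩ := Run7.h875.TM.finM k Unit _ _ _ h6 hD T
    (fun P hP => ⟨(hT P hP).1, fun _ => (hT P hP).2⟩) D₀ hD₀ (fun _ => hp) K
  refine ⟨c, hc, ?_⟩
  filter_upwards [eventually_ge_atTop N₀] with n hn hev
  refine (hN n hn hev).trans (Nat.cast_le.2 (Set.ncard_le_ncard ?_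
    ((Run7.h875.TS.fin_deg k n).subset fun D hD => hD.2.1)))
  rintro D ⟨h1, h2, ⟨D₁, h3, h4, h5⟩, hg⟩
  refine ⟨h2, h1, ⟨D₁, h4, h3, ?_, h5⟩, ?_⟩
  · have e : D.natDegree = D₀.natDegree + D₁.natDegree := by
      rw [h4, natDegree_mul hD₀.ne_zero h3.ne_zero]
    rw [← h1, e] at hev
    have e2 : D₀.natDegree + D₁.natDegree + D₀.natDegree = D₁.natDegree + 2 * D₀.natDegree := by
      ring
    rw [e2, Nat.even_add] at hev
    exact hev.2 (even_two_mul _)
  · intro M _ _ _ _ _ _ m hM hA
    exact hg () M m hM ⟨hA.split, hA.split_infty, hA.unramified⟩

end Pool.Agent.Results.MP_ff7320_nt.TwistsOverTwoExtensions
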